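import Pool.Agent.Q173.KS.Stm

/-!
Project KS (MP_005a57_co), job BOUND: the bound for the recursion (helper110).
-/

set_option autoImplicit false

namespace Pool.Agent.Q110.KS

open Pool.Agent.Q173.KS Finset

theorem Has.mono'' {k : ℕ} {α : Type} [DecidableEq α] {m m' : ℕ} (h : Has k α m) (hm : m ≤ m') :
    Has k α m' := by
  obtain ⟨ℓ, h1, h2, h3⟩ := h
  exact ⟨ℓ, h1, h2, h3.trans hm⟩

theorem triv (hADD : S_ADD) (hTRANS : S_TRANS) (k n : ℕ) : Has k (Fin n) (n * n) := by
  induction n with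
  | zero =>
    refine ⟨[], ?_, ?_, le_rfl⟩
    · intro o ho
      simp at ho
    · intro j _ F x y _ _
      have : x = y := funext fun i => (x i).elim0
      rw [this]
  | succ n ih =>
    have h1 := hADD _ k _ ih
    have h2 := hTRANS _ _ (finSuccEquiv n).symm k _ h1
    rw [Fintype.card_fin] at h2
    exact Has.mono'' h2 (by nlinarith)

theorem has_zero (α : Type) [DecidableEq α] (m : ℕ) : Has 0 α m := by
  refine ⟨[], ?_, ?_, Nat.zero_le _⟩
  · intro o ho
    simp at ho
  · intro j hj F x y _ _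
    obtain rfl : j = 0 := by omega
    have : x = y := Subsingleton.elim _ _
    rw [this]

theorem bound (hSTEP : S_STEP) (hADD : S_ADD) (hTRANS : S_TRANS) : S_BOUND := by
  intro k
  induction k using Nat.strong_induction_on with
  | _ k ihk =>
  intro hk
  obtain ⟨e, he⟩ : ∃ e, e = Nat.log 2 k := ⟨_, rfl⟩
  have hA : ∃ C' : ℕ, ∀ N n : ℕ, N ≤ n → Has (k / 2) (Fin N) (C' * (n * (Nat.log 2 n + 1) ^ e)) := by
    by_cases h2 : k / 2 = 0
    · refine ⟨0, fun N n _ => ?_⟩
      rw [h2]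
      exact has_zero _ _
    · obtain ⟨C', hC'⟩ := ihk (k / 2) (by omega) (by omega)
      have hlog : Nat.log 2 (k / 2) + 1 = e := by
        rw [he, Nat.log_div_base]
        have : 0 < Nat.log 2 k := Nat.log_pos (by norm_num) (by omega)
        omega
      refine ⟨C', fun N n hNn => Has.mono'' (hC' N) ?_⟩
      rw [hlog]
      apply Nat.mul_le_mul_left
      apply Nat.mul_le_mul hNn
      apply Nat.pow_le_pow_left
      have := Nat.log_mono_right (b := 2) hNn
      omega
  obtain ⟨C', hC'⟩ := hA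
  obtain ⟨N₀, C, hS⟩ := hSTEP k hk
  refine ⟨C * (C' + 1) + (N₀ + 2), ?_⟩
  rw [← he]
  intro n
  induction n using Nat.strong_induction_on with
  | _ n ihn =>
  by_cases hn : n < N₀ + 2
  · refine Has.mono'' (triv hADD hTRANS k n) ?_
    have h1 : 1 ≤ (Nat.log 2 n + 1) ^ (e + 1) := Nat.one_le_pow _ _ (by omega)
    calc n * n ≤ (N₀ + 2) * n := Nat.mul_le_mul_right n (by omega)
      _ ≤ (C * (C' + 1) + (N₀ + 2)) * n := Nat.mul_le_mul_right n (by omega)
      _ = (C * (C' + 1) + (N₀ + 2)) * (n * 1) := by rw [mul_one]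
      _ ≤ _ := Nat.mul_le_mul_left _ (Nat.mul_le_mul_left _ h1)
  · have h1 := ihn (n / 2) (by omega)
    obtain ⟨L, hL⟩ : ∃ L, L = Nat.log 2 n := ⟨_, rfl⟩
    have hL1 : 0 < Nat.log 2 n := Nat.log_pos (by norm_num) (by omega)
    have hlog : Nat.log 2 (n / 2) + 1 = L := by
      rw [hL, Nat.log_div_base]
      omega
    rw [hlog] at h1
    have h2 := hC' (n / 2 - k) n (by omega)
    rw [← hL] at h2 ⊢
    have h3 := hS n (by omega) _ _ h1 h2
    refine Has.mono'' h3 ?_
    have hp : 1 ≤ (L + 1) ^ e := Nat.one_le_pow _ _ (by omega)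
    have hpow : L ^ (e + 1) + (L + 1) ^ e ≤ (L + 1) ^ (e + 1) := by
      have h4 : L ^ (e + 1) = L * L ^ e := by ring
      have h5 : (L + 1) ^ (e + 1) = L * (L + 1) ^ e + (L + 1) ^ e := by ring
      have h6 : L ^ e ≤ (L + 1) ^ e := Nat.pow_le_pow_left (by omega) _
      have h7 : L * L ^ e ≤ L * (L + 1) ^ e := Nat.mul_le_mul_left L h6
      omega
    generalize hK : C * (C' + 1) + (N₀ + 2) = K
    have hKC : C * (C' + 1) ≤ K := by omega
    generalize L ^ (e + 1) = P at *
    generalize (L + 1) ^ e = Q at *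
    generalize (L + 1) ^ (e + 1) = R at *
    have i1 : 2 * (K * (n / 2 * P)) ≤ K * (n * P) := by
      have : 2 * (n / 2) ≤ n := by omega
      calc 2 * (K * (n / 2 * P)) = K * ((2 * (n / 2)) * P) := by ring
        _ ≤ K * (n * P) := Nat.mul_le_mul_left K (Nat.mul_le_mul_right P this)
    have i2 : C * (C' * (n * Q) + n) ≤ K * (n * Q) := by
      have : n ≤ n * Q := Nat.le_mul_of_pos_right n hp
      calc C * (C' * (n * Q) + n) ≤ C * (C' * (n * Q) + n * Q) := Nat.mul_le_mul_left C (by omega)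
        _ = (C * (C' + 1)) * (n * Q) := by ring
        _ ≤ K * (n * Q) := Nat.mul_le_mul_right _ hKC
    calc 2 * (K * (n / 2 * P)) + C * (C' * (n * Q) + n) ≤ K * (n * P) + K * (n * Q) := by omega
      _ = K * (n * (P + Q)) := by ring
      _ ≤ K * (n * R) := Nat.mul_le_mul_left K (Nat.mul_le_mul_left n hpow)

end Pool.Agent.Q110.KS
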