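import Pool.Agent.Q173.KS.Stm

/-!
Project KS (MP_005a57_co), job STEP: the recursion (helper110).
-/

set_option autoImplicit false

namespace Pool.Agent.Q110.KS

open Pool.Agent.Q173.KS Finset

theorem Has.mono' {k : ℕ} {α : Type} [DecidableEq α] {m m' : ℕ} (h : Has k α m) (hm : m ≤ m') :
    Has k α m' := by
  obtain ⟨ℓ, h1, h2, h3⟩ := h
  exact ⟨ℓ, h1, h2, h3.trans hm⟩

theorem step (hBIS : S_BIS) (hJOIN : S_JOIN) (hTRANS : S_TRANS) (hADD : S_ADD) : S_STEP := by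
  intro k hk
  obtain ⟨N₁, r, hB⟩ := hBIS k hk
  refine ⟨2 * (N₁ + k) + 2, r + 4 * k + 10, ?_⟩
  intro n hn a m ha hm
  obtain ⟨N, hN⟩ : ∃ N, N = n / 2 - k := ⟨_, rfl⟩
  rw [← hN] at hm
  have hNk : N + k = n / 2 := by omega
  have hN1 : N₁ ≤ N := by omega
  obtain ⟨ℓ, hok, hbis, hlen⟩ := hB N hN1 m hm
  let e : Fin (n / 2) ≃ (Fin N ⊕ Fin k) := (finCongr hNk.symm).trans finSumFinEquiv.symm
  have hJ : Has k (Fin N ⊕ Fin k) a := hTRANS _ _ e k a ha
  have hcard : Fintype.card (Fin N ⊕ Fin k) = N + k := by simp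
  have h1 : Has k (Bool × (Fin N ⊕ Fin k)) (r * (m + N) + k + 2 * (k * (N + k)) + 2 * a) :=
    hJOIN (Fin N ⊕ Fin k) k a _ (by rw [hcard]; omega) hJ ⟨ℓ, hok, hbis, hlen⟩
  have hcard2 : Fintype.card (Bool × (Fin N ⊕ Fin k)) = 2 * (n / 2) := by
    rw [Fintype.card_prod, hcard, hNk, Fintype.card_bool]
  have hineq : r * (m + N) + k + 2 * (k * (N + k)) + 2 * a + 2 * (n / 2) ≤
      2 * a + (r + 4 * k + 10) * (m + n) := by
    have i1 : r * (m + N) ≤ r * (m + n) := Nat.mul_le_mul_left r (by omega)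
    have i2 : k * (N + k) ≤ k * (m + n) := Nat.mul_le_mul_left k (by omega)
    have i3 : k * 1 ≤ k * (m + n) := Nat.mul_le_mul_left k (by omega)
    have i4 : 2 * (n / 2) ≤ m + n := by omega
    have i5 : (r + 4 * k + 10) * (m + n) = r * (m + n) + 4 * (k * (m + n)) + 10 * (m + n) := by ring
    omega
  rcases Nat.even_or_odd' n with ⟨c, hc | hc⟩
  · have e2 : Bool × (Fin N ⊕ Fin k) ≃ Fin n := Fintype.equivFinOfCardEq (by rw [hcard2]; omega)
    exact Has.mono' (hTRANS _ _ e2 k _ h1) (by omega)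
  · have h2 := hADD _ k _ h1
    rw [hcard2] at h2
    have e2 : Option (Bool × (Fin N ⊕ Fin k)) ≃ Fin n :=
      Fintype.equivFinOfCardEq (by rw [Fintype.card_option, hcard2]; omega)
    exact Has.mono' (hTRANS _ _ e2 k _ h2) hineq

end Pool.Agent.Q110.KS
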